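import Pool.Agent.Helper52.TC.Spec

/-! Modules L2 and L3 of the lower bound on (min,+) circuits. -/

set_option autoImplicit false

namespace Pool.Agent.Helper81.TC

open Pool.Agent.Helper52.TC
open Filter Topology

theorem rd2_symm (p q : ℝ × ℝ) : rd2 p q = rd2 q p := by
  unfold rd2; congr 1; ring

theorem rd2_self (p : ℝ × ℝ) : rd2 p p = 0 := by simp [rd2]

theorem Un.symm {p q : ℕ × ℕ} (h : Un p q) : Un q p := by
  unfold Un at *; tauto

theorem Un.ne {p q : ℕ × ℕ} (h : Un p q) : p ≠ q := by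
  rintro rfl
  obtain ⟨x, y⟩ := p
  simp [Un] at h

/-- symmetric weights -/
theorem pert' (hP : specP) {m : ℕ} {pos : Fin m → ℕ × ℕ} (hinj : Function.Injective pos)
    (s : Fin m → Fin m → ℝ) (hs : ∀ u v, s u v = s v u) :
    ∃ K > 0, ∃ t₀ > 0, ∀ t : ℝ, 0 < t → t < t₀ → ∃ q : Fin m → ℝ × ℝ,
      (∀ i, |(q i).1 - (pos i).1| ≤ K * t ∧ |(q i).2 - (pos i).2| ≤ K * t) ∧
      (∀ i j, Un (pos i) (pos j) → 1 + t * s i j ≤ rd2 (q i) (q j) ∧
        rd2 (q i) (q j) ≤ 1 + t * s i j + K * t ^ 2) ∧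
      (∀ i j, i ≠ j → ¬ Un (pos i) (pos j) → 5 / 4 ≤ rd2 (q i) (q j)) := by
  classical
  let wH : ℕ → ℕ → ℝ := fun x y =>
    if h : ∃ e : Fin m × Fin m, pos e.1 = (x, y) ∧ pos e.2 = (x + 1, y) then
      s h.choose.1 h.choose.2 else 0
  let wV : ℕ → ℕ → ℝ := fun x y =>
    if h : ∃ e : Fin m × Fin m, pos e.1 = (x, y) ∧ pos e.2 = (x, y + 1) then
      s h.choose.1 h.choose.2 else 0
  have hwH : ∀ i j, pos j = ((pos i).1 + 1, (pos i).2) → wH (pos i).1 (pos i).2 = s i j := by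
    intro i j hij
    have h : ∃ e : Fin m × Fin m, pos e.1 = ((pos i).1, (pos i).2) ∧
        pos e.2 = ((pos i).1 + 1, (pos i).2) := ⟨(i, j), rfl, hij⟩
    have hc := h.choose_spec
    have e1 : h.choose.1 = i := hinj hc.1
    have e2 : h.choose.2 = j := hinj (hc.2.trans hij.symm)
    simp only [wH]
    rw [dif_pos h, e1, e2]
  have hwV : ∀ i j, pos j = ((pos i).1, (pos i).2 + 1) → wV (pos i).1 (pos i).2 = s i j := by
    intro i j hij
    have h : ∃ e : Fin m × Fin m, pos e.1 = ((pos i).1, (pos i).2) ∧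
        pos e.2 = ((pos i).1, (pos i).2 + 1) := ⟨(i, j), rfl, hij⟩
    have hc := h.choose_spec
    have e1 : h.choose.1 = i := hinj hc.1
    have e2 : h.choose.2 = j := hinj (hc.2.trans hij.symm)
    simp only [wV]
    rw [dif_pos h, e1, e2]
  obtain ⟨K, hK, t₀, ht₀, h⟩ := hP m pos wH wV hinj
  refine ⟨K, hK, t₀, ht₀, fun t ht ht' => ?_⟩
  obtain ⟨q, h1, h2, h3, h4⟩ := h t ht ht'
  refine ⟨q, h1, ?_, h4⟩
  intro i j hij
  rcases hij with hij | hij | hij | hij
  · have := h2 i j hij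
    rwa [hwH i j hij] at this
  · have := h2 j i hij
    rw [hwH j i hij, hs j i] at this
    rwa [rd2_symm (q i) (q j)]
  · have := h3 i j hij
    rwa [hwV i j hij] at this
  · have := h3 j i hij
    rw [hwV j i hij, hs j i] at this
    rwa [rd2_symm (q i) (q j)]

theorem finRotate_ne {m : ℕ} (hm : 2 ≤ m) (i : Fin m) : finRotate m i ≠ i := by
  obtain ⟨k, rfl⟩ : ∃ k, m = k + 1 := ⟨m - 1, by omega⟩
  intro h
  have h2 := congrArg Fin.val h
  rw [finRotate_succ_apply] at h2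
  by_cases hi : i.val = k
  · have : i = Fin.last k := Fin.ext hi
    subst this
    simp at h2
    omega
  · rw [Fin.val_add_one_of_lt (by rw [Fin.lt_def]; simp; omega)] at h2
    omega

theorem finRotate_ne2 {m : ℕ} (hm : 3 ≤ m) (i : Fin m) : finRotate m (finRotate m i) ≠ i := by
  obtain ⟨k, rfl⟩ : ∃ k, m = k + 1 := ⟨m - 1, by omega⟩
  intro h
  have h2 := congrArg Fin.val h
  rw [finRotate_succ_apply, finRotate_succ_apply] at h2
  rw [Fin.val_add, Fin.val_add] at h2
  have h1 : ((1 : Fin (k + 1)) : ℕ) = 1 := by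
    rw [Fin.val_one']
    exact Nat.mod_eq_of_lt (by omega)
  rw [h1] at h2
  have hi := i.isLt
  by_cases h3 : i.val + 1 < k + 1
  · rw [Nat.mod_eq_of_lt h3] at h2
    by_cases h4 : i.val + 1 + 1 < k + 1
    · rw [Nat.mod_eq_of_lt h4] at h2; omega
    · have : i.val + 1 + 1 = k + 1 := by omega
      rw [this, Nat.mod_self] at h2; omega
  · have h5 : i.val + 1 = k + 1 := by omega
    rw [h5, Nat.mod_self, Nat.mod_eq_of_lt (by omega)] at h2
    omega

theorem tc_le_one {m : ℕ} (hm : 3 ≤ m) (τ : Equiv.Perm (Fin m)) (u v : Fin m) : tc τ u v ≤ 1 := by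
  unfold tc
  rw [Finset.card_le_one]
  intro i hi j hj
  rw [Finset.mem_filter] at hi hj
  have inj := τ.injective
  have inj2 := (finRotate m).injective
  rcases hi.2 with ⟨a1, a2⟩ | ⟨a1, a2⟩ <;> rcases hj.2 with ⟨b1, b2⟩ | ⟨b1, b2⟩
  · exact inj (a1.trans b1.symm)
  · exfalso
    have e1 : i = finRotate m j := inj (a1.trans b2.symm)
    have e2 : finRotate m i = j := inj (a2.trans b1.symm)
    exact finRotate_ne2 hm i (by rw [e2]; exact e1.symm)
  · exfalso
    have e1 : i = finRotate m j := inj (a1.trans b2.symm)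
    have e2 : finRotate m i = j := inj (a2.trans b1.symm)
    exact finRotate_ne2 hm i (by rw [e2]; exact e1.symm)
  · exact inj (a1.trans b1.symm)

theorem tc_eq {m : ℕ} (τ : Equiv.Perm (Fin m)) {u v : Fin m} (huv : u ≠ v) :
    tc τ u v = ∑ i, ((if τ i = u ∧ τ (finRotate m i) = v then 1 else 0) +
      (if τ i = v ∧ τ (finRotate m i) = u then 1 else 0)) := by
  unfold tc
  rw [Finset.card_filter]
  refine Finset.sum_congr rfl fun i _ => ?_
  by_cases h1 : τ i = u ∧ τ (finRotate m i) = v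
  · rw [if_pos (Or.inl h1), if_pos h1, if_neg]
    rintro ⟨h2, -⟩
    exact huv (h1.1.symm.trans h2)
  · by_cases h2 : τ i = v ∧ τ (finRotate m i) = u
    · rw [if_pos (Or.inr h2), if_pos h2, if_neg h1]
    · rw [if_neg (by tauto), if_neg h1, if_neg h2]

theorem step_ne {m : ℕ} (hm : 2 ≤ m) (τ : Equiv.Perm (Fin m)) (i : Fin m) :
    τ i ≠ τ (finRotate m i) := fun h => finRotate_ne hm i (τ.injective h).symm

/-- every step of a tour is counted for two ordered pairs -/
theorem sum_tc {m : ℕ} (hm : 2 ≤ m) (τ : Equiv.Perm (Fin m)) :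
    ∑ e : Fin m × Fin m, (if e.1 = e.2 then 0 else tc τ e.1 e.2) = 2 * m := by
  classical
  have h1 : ∀ e : Fin m × Fin m, (if e.1 = e.2 then 0 else tc τ e.1 e.2) =
      ∑ i, ((if e = (τ i, τ (finRotate m i)) then 1 else 0) +
        (if e = (τ (finRotate m i), τ i) then 1 else 0)) := by
    rintro ⟨u, v⟩
    by_cases huv : u = v
    · subst huv
      rw [if_pos rfl, eq_comm, Finset.sum_eq_zero]
      intro i _
      have g1 : ¬ ((u, u) = (τ i, τ (finRotate m i))) := by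
        intro h
        rw [Prod.mk.injEq] at h
        exact step_ne hm τ i (h.1.symm.trans h.2)
      have g2 : ¬ ((u, u) = (τ (finRotate m i), τ i)) := by
        intro h
        rw [Prod.mk.injEq] at h
        exact step_ne hm τ i (h.2.symm.trans h.1)
      simp only [if_neg g1, if_neg g2, add_zero]
    · rw [if_neg huv]
      show tc τ u v = _
      rw [tc_eq τ huv]
      refine Finset.sum_congr rfl fun i _ => ?_
      congr 1
      · refine if_congr ?_ rfl rfl
        rw [Prod.mk.injEq]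
        constructor
        · rintro ⟨a, b⟩; exact ⟨a.symm, b.symm⟩
        · rintro ⟨a, b⟩; exact ⟨a.symm, b.symm⟩
      · refine if_congr ?_ rfl rfl
        rw [Prod.mk.injEq]
        constructor
        · rintro ⟨a, b⟩; exact ⟨b.symm, a.symm⟩
        · rintro ⟨a, b⟩; exact ⟨b.symm, a.symm⟩
  rw [Finset.sum_congr rfl fun e _ => h1 e, Finset.sum_comm]
  have h2 : ∀ i : Fin m, ∑ e : Fin m × Fin m, ((if e = (τ i, τ (finRotate m i)) then 1 else 0) +
        (if e = (τ (finRotate m i), τ i) then 1 else 0)) = 2 := by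
    intro i
    rw [Finset.sum_add_distrib, Finset.sum_ite_eq', Finset.sum_ite_eq']
    simp
  rw [Finset.sum_congr rfl fun i _ => h2 i]
  simp [mul_comm]

/-- the sum over ordered pairs of `a (u, v) + a (v, u)` -/
theorem sum_sym {m : ℕ} (a : Fin m × Fin m → ℕ) :
    ∑ e : Fin m × Fin m, (if e.1 = e.2 then 0 else (a (e.1, e.2) + a (e.2, e.1))) =
      2 * ∑ e : Fin m × Fin m, if e.1 = e.2 then 0 else a e := by
  have h1 : ∑ e : Fin m × Fin m, (if e.1 = e.2 then 0 else a (e.2, e.1)) =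
      ∑ e : Fin m × Fin m, if e.1 = e.2 then 0 else a e := by
    rw [← Equiv.sum_comp (Equiv.prodComm (Fin m) (Fin m))]
    refine Finset.sum_congr rfl fun e _ => ?_
    simp only [Equiv.prodComm_apply, Prod.fst_swap, Prod.snd_swap]
    by_cases h : e.1 = e.2
    · rw [if_pos h, if_pos h.symm]
    · rw [if_neg h, if_neg (Ne.symm h)]
  rw [two_mul]
  nth_rewrite 2 [← h1]
  rw [← Finset.sum_add_distrib]
  refine Finset.sum_congr rfl fun e _ => ?_
  by_cases h : e.1 = e.2
  · simp [h]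
  · simp [h]

/-- first order comparison -/
theorem compare (hP : specP) {m : ℕ} (hm : 3 ≤ m) {pos : Fin m → ℕ × ℕ}
    (hinj : Function.Injective pos) {ε : ℝ} (hε : 0 < ε) {𝒮 : Set (Fin m × Fin m → ℕ)}
    (hB : Base pos ε 𝒮) {a : Fin m × Fin m → ℕ} (ha : a ∈ 𝒮)
    (hun : ∀ u v, u ≠ v → a (u, v) ≠ 0 → Un (pos u) (pos v))
    (hdeg : (∑ e : Fin m × Fin m, if e.1 = e.2 then 0 else a e) = m)
    (s : Fin m → Fin m → ℝ) (hs : ∀ u v, s u v = s v u) :
    ∃ τ, UTour pos τ ∧ ∑ i, s (τ i) (τ (finRotate m i)) ≤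
      ∑ e : Fin m × Fin m, (if e.1 = e.2 then 0 else (a e : ℝ) * s e.1 e.2) := by
  classical
  by_contra hcon
  push Not at hcon
  set A : ℝ := ∑ e : Fin m × Fin m, (if e.1 = e.2 then 0 else (a e : ℝ) * s e.1 e.2) with hA
  obtain ⟨K, hK, t₀, ht₀, hq⟩ := pert' hP hinj s hs
  -- a bound of the weights
  set W : ℝ := ∑ e : Fin m × Fin m, |s e.1 e.2| with hW
  have hsW : ∀ u v, -W ≤ s u v := by
    intro u v
    have : |s u v| ≤ W := Finset.single_le_sum
      (f := fun e : Fin m × Fin m => |s e.1 e.2|) (fun e _ => abs_nonneg _) (Finset.mem_univ (u, v))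
    linarith [neg_abs_le (s u v)]
  have hW0 : 0 ≤ W := Finset.sum_nonneg fun _ _ => abs_nonneg _
  -- small t
  have e1 : ∀ᶠ t : ℝ in 𝓝[>] 0, t < t₀ := by
    refine mem_nhdsWithin_of_mem_nhds (Iio_mem_nhds ht₀)
  have e2 : ∀ᶠ t : ℝ in 𝓝[>] 0, K * t < ε := by
    have : Tendsto (fun t : ℝ => K * t) (𝓝[>] 0) (𝓝 0) := by
      refine ((continuous_const.mul continuous_id).tendsto' 0 0 (by simp)).mono_left nhdsWithin_le_nhds
    exact this.eventually_lt_const hε
  have e3 : ∀ᶠ t : ℝ in 𝓝[>] 0, (m : ℝ) * (W * t) + (A * t + K * m * t ^ 2) < 1 / 4 := by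
    have : Tendsto (fun t : ℝ => (m : ℝ) * (W * t) + (A * t + K * m * t ^ 2)) (𝓝[>] 0) (𝓝 0) := by
      refine (Continuous.tendsto' (by fun_prop) 0 0 (by simp)).mono_left nhdsWithin_le_nhds
    exact this.eventually_lt_const (by norm_num)
  have e4 : ∀ᶠ t : ℝ in 𝓝[>] 0, ∀ τ : Equiv.Perm (Fin m), UTour pos τ →
      A + K * m * t < ∑ i, s (τ i) (τ (finRotate m i)) := by
    rw [eventually_all]
    intro τ
    by_cases hτ : UTour pos τ
    · have : Tendsto (fun t : ℝ => A + K * m * t) (𝓝[>] 0) (𝓝 A) := by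
        refine (Continuous.tendsto' (by fun_prop) 0 A (by simp)).mono_left nhdsWithin_le_nhds
      filter_upwards [this.eventually_lt_const (hcon τ hτ)] with t ht _ using ht
    · exact Eventually.of_forall fun t h => absurd h hτ
  have e5 : ∀ᶠ t : ℝ in 𝓝[>] 0, 0 < t := eventually_mem_nhdsWithin
  obtain ⟨t, h1, h2, h3, h4, h5⟩ := (e1.and (e2.and (e3.and (e4.and e5)))).exists
  obtain ⟨q, q1, q2, q3⟩ := hq t h5 h1
  have hnear : Near pos ε q := fun i => ⟨lt_of_le_of_lt (q1 i).1 h2, lt_of_le_of_lt (q1 i).2 h2⟩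
  obtain ⟨τ, hτ⟩ := hB.low q hnear a ha
  -- upper bound
  have hup : aval a q ≤ m + t * A + K * m * t ^ 2 := by
    have hm' : (m : ℝ) = ∑ e : Fin m × Fin m, (if e.1 = e.2 then 0 else (a e : ℝ)) := by
      have := congrArg (Nat.cast (R := ℝ)) hdeg
      push_cast at this
      rw [← this]
    have : (m : ℝ) + t * A + K * m * t ^ 2 =
        ∑ e : Fin m × Fin m, (if e.1 = e.2 then 0 else
          (a e : ℝ) * (1 + t * s e.1 e.2 + K * t ^ 2)) := by
      have h0 : (m : ℝ) + t * A + K * m * t ^ 2 = (1 + K * t ^ 2) * m + t * A := by ring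
      rw [h0, hm', hA, Finset.mul_sum, Finset.mul_sum, ← Finset.sum_add_distrib]
      refine Finset.sum_congr rfl fun e _ => ?_
      by_cases h : e.1 = e.2
      · simp [h]
      · simp only [h, if_false]; ring
    rw [this]
    unfold aval
    refine Finset.sum_le_sum fun e _ => ?_
    by_cases h : e.1 = e.2
    · rw [if_pos h, h, rd2_self]; simp
    · rw [if_neg h]
      by_cases h0 : a e = 0
      · rw [h0]; simp
      · refine mul_le_mul_of_nonneg_left ?_ (by positivity)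
        exact (q2 e.1 e.2 (hun e.1 e.2 h h0)).2
  by_cases hu : UTour pos τ
  · have hlow : (m : ℝ) + t * ∑ i, s (τ i) (τ (finRotate m i)) ≤ rlen q τ := by
      have : (m : ℝ) + t * ∑ i, s (τ i) (τ (finRotate m i)) =
          ∑ i, (1 + t * s (τ i) (τ (finRotate m i))) := by
        rw [Finset.sum_add_distrib, Finset.mul_sum]; simp
      rw [this]
      exact Finset.sum_le_sum fun i _ => (q2 _ _ (hu i)).1
    have h6 := h4 τ hu
    have h7 : t * (A + K * m * t) < t * ∑ i, s (τ i) (τ (finRotate m i)) :=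
      mul_lt_mul_of_pos_left h6 h5
    nlinarith
  · unfold UTour at hu
    push Not at hu
    obtain ⟨i₀, hi₀⟩ := hu
    have hlow : (m : ℝ) - m * (W * t) + 1 / 4 ≤ rlen q τ := by
      have hstep : ∀ i, 1 - W * t ≤ rd2 (q (τ i)) (q (τ (finRotate m i))) := by
        intro i
        by_cases h : Un (pos (τ i)) (pos (τ (finRotate m i)))
        · have := (q2 _ _ h).1
          have := mul_le_mul_of_nonneg_left (hsW (τ i) (τ (finRotate m i))) h5.le
          linarith
        · have := q3 _ _ (step_ne (by omega) τ i) h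
          have : 0 ≤ W * t := by positivity
          linarith
      have hbig := q3 _ _ (step_ne (by omega) τ i₀) hi₀
      have hWt : 0 ≤ W * t := by positivity
      unfold rlen
      rw [← Finset.add_sum_erase _ _ (Finset.mem_univ i₀)]
      have h8 : (∑ _i ∈ Finset.univ.erase i₀, (1 - W * t)) ≤
          ∑ i ∈ Finset.univ.erase i₀, rd2 (q (τ i)) (q (τ (finRotate m i))) :=
        Finset.sum_le_sum fun i _ => hstep i
      rw [Finset.sum_const, Finset.card_erase_of_mem (Finset.mem_univ _), Finset.card_univ,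
        Fintype.card_fin, nsmul_eq_mul, Nat.cast_sub (by omega)] at h8
      push_cast at h8
      nlinarith
    nlinarith

theorem L2 (hP : specP) : specL2 := by
  classical
  intro m pos ε 𝒮 hm hinj hε hB a ha hun hdeg
  let s : Fin m → Fin m → ℝ := fun u v => if a (u, v) + a (v, u) = 0 then 1 else -1
  have hs : ∀ u v, s u v = s v u := by
    intro u v; simp only [s, add_comm]
  obtain ⟨τ, hτ, hle⟩ := compare hP hm hinj hε hB ha hun hdeg s hs
  refine ⟨τ, hτ, ?_⟩
  have hval : ∑ e : Fin m × Fin m, (if e.1 = e.2 then 0 else (a e : ℝ) * s e.1 e.2) = -m := by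
    have hm' : (m : ℝ) = ∑ e : Fin m × Fin m, (if e.1 = e.2 then 0 else (a e : ℝ)) := by
      have := congrArg (Nat.cast (R := ℝ)) hdeg
      push_cast at this
      rw [← this]
    rw [hm', ← Finset.sum_neg_distrib]
    refine Finset.sum_congr rfl fun e _ => ?_
    by_cases h : e.1 = e.2
    · simp [h]
    · rw [if_neg h, if_neg h]
      by_cases h0 : a e = 0
      · rw [h0]; simp
      · have : ¬ (a (e.1, e.2) + a (e.2, e.1) = 0) := by
          intro h1
          have h2 : a (e.1, e.2) = 0 := by omega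
          exact h0 h2
        simp only [s, this, if_false]; ring
  rw [hval] at hle
  -- all steps have weight -1
  have hall : ∀ i, a (τ i, τ (finRotate m i)) + a (τ (finRotate m i), τ i) ≠ 0 := by
    intro i₀ h0
    have hge : ∀ i, (-1 : ℝ) ≤ s (τ i) (τ (finRotate m i)) := by
      intro i
      simp only [s]; split_ifs <;> norm_num
    have h8 : (∑ _i ∈ Finset.univ.erase i₀, (-1 : ℝ)) ≤
        ∑ i ∈ Finset.univ.erase i₀, s (τ i) (τ (finRotate m i)) :=
      Finset.sum_le_sum fun i _ => hge i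
    rw [Finset.sum_const, Finset.card_erase_of_mem (Finset.mem_univ _), Finset.card_univ,
      Fintype.card_fin, nsmul_eq_mul, Nat.cast_sub (by omega)] at h8
    rw [← Finset.add_sum_erase _ _ (Finset.mem_univ i₀)] at hle
    have h9 : s (τ i₀) (τ (finRotate m i₀)) = 1 := by simp only [s, h0, if_true]
    rw [h9] at hle
    push_cast at h8
    linarith
  have hle2 : ∀ u v, u ≠ v → tc τ u v ≤ a (u, v) + a (v, u) := by
    intro u v huv
    by_cases h0 : a (u, v) + a (v, u) = 0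
    · rw [h0, Nat.le_zero]
      unfold tc
      rw [Finset.card_eq_zero, Finset.filter_eq_empty_iff]
      intro i _ hi
      rcases hi with ⟨h1, h2⟩ | ⟨h1, h2⟩
      · apply hall i; rw [h1, h2]; exact h0
      · apply hall i; rw [h1, h2]; omega
    · have := tc_le_one hm τ u v
      omega
  have hsum : ∑ e : Fin m × Fin m, (if e.1 = e.2 then 0 else tc τ e.1 e.2) =
      ∑ e : Fin m × Fin m, (if e.1 = e.2 then 0 else (a (e.1, e.2) + a (e.2, e.1))) := by
    rw [sum_tc (by omega), sum_sym, hdeg]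
  have hterm := (Finset.sum_eq_sum_iff_of_le (fun e _ => by
    by_cases h : e.1 = e.2
    · simp [h]
    · rw [if_neg h, if_neg h]; exact hle2 e.1 e.2 h)).1 hsum
  intro u v huv
  have := hterm (u, v) (Finset.mem_univ _)
  simp only [huv, if_false] at this
  exact this.symm

theorem one_le_rd2 {p q : ℕ × ℕ} (h : p ≠ q) :
    1 ≤ rd2 ((p.1 : ℝ), (p.2 : ℝ)) ((q.1 : ℝ), (q.2 : ℝ)) := by
  unfold rd2
  rw [Real.one_le_sqrt]
  have h2 : (1 : ℤ) ≤ ((p.1 : ℤ) - (q.1 : ℤ)) ^ 2 + ((p.2 : ℤ) - (q.2 : ℤ)) ^ 2 := by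
    by_contra hc
    push Not at hc
    have h3 : ((p.1 : ℤ) - q.1) ^ 2 + ((p.2 : ℤ) - q.2) ^ 2 = 0 := by
      have : 0 ≤ ((p.1 : ℤ) - q.1) ^ 2 + ((p.2 : ℤ) - q.2) ^ 2 := by positivity
      omega
    have h4 : ((p.1 : ℤ) - q.1) ^ 2 = 0 := by nlinarith [sq_nonneg ((p.2 : ℤ) - q.2), sq_nonneg ((p.1 : ℤ) - q.1)]
    have h5 : ((p.2 : ℤ) - q.2) ^ 2 = 0 := by nlinarith [sq_nonneg ((p.2 : ℤ) - q.2), sq_nonneg ((p.1 : ℤ) - q.1)]
    have h6 := pow_eq_zero_iff (two_ne_zero) |>.1 h4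
    have h7 := pow_eq_zero_iff (two_ne_zero) |>.1 h5
    apply h
    ext
    · omega
    · omega
  have h3 : ((1 : ℤ) : ℝ) ≤ ((((p.1 : ℤ) - (q.1 : ℤ)) ^ 2 + ((p.2 : ℤ) - (q.2 : ℤ)) ^ 2 : ℤ) : ℝ) :=
    Int.cast_le.2 h2
  rw [Int.cast_add, Int.cast_pow, Int.cast_pow, Int.cast_sub, Int.cast_sub] at h3
  simpa using h3

theorem rd2_un {p q : ℕ × ℕ} (h : Un p q) :
    rd2 ((p.1 : ℝ), (p.2 : ℝ)) ((q.1 : ℝ), (q.2 : ℝ)) = 1 := by
  unfold rd2
  rw [Real.sqrt_eq_one]
  rcases h with h | h | h | h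
  · rw [h]; push_cast; ring
  · rw [h]; push_cast; ring
  · rw [h]; push_cast; ring
  · rw [h]; push_cast; ring

theorem tc_ne_zero_un {m : ℕ} {pos : Fin m → ℕ × ℕ} {τ : Equiv.Perm (Fin m)} (hτ : UTour pos τ)
    {u v : Fin m} (h : tc τ u v ≠ 0) : Un (pos u) (pos v) := by
  unfold tc at h
  rw [Ne, Finset.card_eq_zero, Finset.filter_eq_empty_iff] at h
  push Not at h
  obtain ⟨i, -, hi⟩ := h
  rcases hi with ⟨h1, h2⟩ | ⟨h1, h2⟩
  · rw [← h1, ← h2]; exact hτ i
  · rw [← h1, ← h2]; exact Un.symm (hτ i)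

theorem deg_ge {m : ℕ} (hm : 3 ≤ m) {pos : Fin m → ℕ × ℕ}
    (hinj : Function.Injective pos) {ε : ℝ} (hε : 0 < ε) {𝒮 : Set (Fin m × Fin m → ℕ)}
    (hB : Base pos ε 𝒮) {a : Fin m × Fin m → ℕ} (ha : a ∈ 𝒮)
    (hun : ∀ u v, u ≠ v → a (u, v) ≠ 0 → Un (pos u) (pos v)) :
    m ≤ (∑ e : Fin m × Fin m, if e.1 = e.2 then 0 else a e) := by
  classical
  let q : Fin m → ℝ × ℝ := fun i => (((pos i).1 : ℝ), ((pos i).2 : ℝ))
  have hnear : Near pos ε q := by
    intro i
    simp only [q, sub_self, abs_zero]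
    exact ⟨hε, hε⟩
  obtain ⟨τ, hτ⟩ := hB.low q hnear a ha
  have h1 : (m : ℝ) ≤ rlen q τ := by
    have : (m : ℝ) = ∑ _i : Fin m, (1 : ℝ) := by simp
    rw [this]
    refine Finset.sum_le_sum fun i _ => one_le_rd2 ?_
    exact fun h => step_ne (by omega) τ i (hinj h)
  have h2 : aval a q = ((∑ e : Fin m × Fin m, if e.1 = e.2 then 0 else a e : ℕ) : ℝ) := by
    unfold aval
    push_cast
    refine Finset.sum_congr rfl fun e _ => ?_
    by_cases h : e.1 = e.2
    · rw [if_pos h, h, rd2_self]; simp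
    · rw [if_neg h]
      by_cases h0 : a e = 0
      · rw [h0]; simp
      · rw [rd2_un (hun e.1 e.2 h h0), mul_one]
  rw [h2] at hτ
  exact_mod_cast h1.trans hτ

theorem L3 (hL2 : specL2) : specL3 := by
  classical
  intro m pos ε 𝒮 hm hinj hε hB τ₁ τ₂ hτ₁ hτ₂ a ha b hb hab
  have hua : ∀ u v, u ≠ v → a (u, v) ≠ 0 → Un (pos u) (pos v) := by
    intro u v huv h0
    have h := hab u v huv
    by_cases h1 : tc τ₁ u v = 0
    · by_cases h2 : tc τ₂ u v = 0
      · omega
      · exact tc_ne_zero_un hτ₂ h2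
    · exact tc_ne_zero_un hτ₁ h1
  have hub : ∀ u v, u ≠ v → b (u, v) ≠ 0 → Un (pos u) (pos v) := by
    intro u v huv h0
    have h := hab u v huv
    by_cases h1 : tc τ₁ u v = 0
    · by_cases h2 : tc τ₂ u v = 0
      · omega
      · exact tc_ne_zero_un hτ₂ h2
    · exact tc_ne_zero_un hτ₁ h1
  have ga := deg_ge hm hinj hε hB ha hua
  have gb := deg_ge hm hinj hε hB hb hub
  have hsum : ∑ e : Fin m × Fin m, (if e.1 = e.2 then 0 else (a (e.1, e.2) + a (e.2, e.1))) +
      ∑ e : Fin m × Fin m, (if e.1 = e.2 then 0 else (b (e.1, e.2) + b (e.2, e.1))) =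
      ∑ e : Fin m × Fin m, (if e.1 = e.2 then 0 else tc τ₁ e.1 e.2) +
      ∑ e : Fin m × Fin m, (if e.1 = e.2 then 0 else tc τ₂ e.1 e.2) := by
    rw [← Finset.sum_add_distrib, ← Finset.sum_add_distrib]
    refine Finset.sum_congr rfl fun e _ => ?_
    by_cases h : e.1 = e.2
    · simp [h]
    · simp only [h, if_false]
      exact hab e.1 e.2 h
  rw [sum_tc (by omega), sum_tc (by omega), sum_sym, sum_sym] at hsum
  have ea : (∑ e : Fin m × Fin m, if e.1 = e.2 then 0 else a e) = m := by omega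
  have eb : (∑ e : Fin m × Fin m, if e.1 = e.2 then 0 else b e) = m := by omega
  obtain ⟨τ₃, h3, h3'⟩ := hL2 m pos ε 𝒮 hm hinj hε hB a ha hua ea
  obtain ⟨τ₄, h4, h4'⟩ := hL2 m pos ε 𝒮 hm hinj hε hB b hb hub eb
  exact ⟨τ₃, τ₄, h3, h4, h3', h4'⟩

end Pool.Agent.Helper81.TC
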